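import Pool.Agent.H76.MX.Cf
import Pool.Agent.H30.MQ.Fin

/-!
Project MP_78d38b_MX: the final theorem for every number field (assembly, no row).
-/

set_option autoImplicit false
set_option linter.unusedSectionVars false
open scoped Classical

open WithZero NumberField IsDedekindDomain H38RT
open H38T1 (SC sc scu rep eo la si Pri OddP tp unif ka)
open H76PP H30ZO H36MT H36CY H30MQ

namespace H30MX

variable {K : Type} [Field K] [NumberField K]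

/-- **The main theorem.** -/
theorem main_MX (hH : H76MX.Hilb K) (hcs : H76MX.ConicSplit K)
    {η : (u : HeightOneSpectrum (𝓞 K)) → SC (H76MX.Kv u)} (hη : ∀ u, η u ≠ 0)
    (hdy : H76MX.DyadicClass η) (hax : H76MX.AuxClass η)
    (N : Type) [Field N] [NumberField N] [Algebra K N] (hgal : IsGalois K N)
    (hdeg : ∃ r : ℕ, Module.finrank K N = 2 ^ r)
    (hN : ∀ v : HeightOneSpectrum (𝓞 K), (2 : 𝓞 K) ∈ v.asIdeal → ∃ ι : N →+* v.adicCompletion K,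
      ∀ x : K, ι (algebraMap K N x) = algebraMap K (v.adicCompletion K) x)
    (D : Finset (𝓞 K)) (hD : ∀ d ∈ D, d ≠ 0) :
    ∃ (S : Finset (HeightOneSpectrum (𝓞 K))) (c X₀ : ℝ), 0 < c ∧ ∀ X : ℝ, X₀ ≤ X →
      ∃ G : Finset (𝓞 K × 𝓞 K),
        (∀ p ∈ G, p ∈ Bx K X ∧ 4 * p.1 ^ 3 + 27 * p.2 ^ 2 ≠ 0 ∧ AdmM K N S p ∧
          ∀ (L : Type) [Field L] [Algebra K L], AdmM K L S p →
            ∀ d ∈ Submonoid.closure (D : Set (𝓞 K)), PF K L (d ^ 2 * p.1, d ^ 3 * p.2)) ∧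
        (∀ p ∈ G, ∀ q ∈ G, p.1 ^ 3 * q.2 ^ 2 = q.1 ^ 3 * p.2 ^ 2 → p = q) ∧
        c * ((Bx K X).ncard : ℝ) ≤ (G.card : ℝ) := by
  obtain ⟨R₀, hR₀⟩ : ∃ R₀ : Finset (HeightOneSpectrum (𝓞 K)), R₀ =
    (ramF_fin (K := K) N).toFinset.filter (fun v => (2 : 𝓞 K) ∉ v.asIdeal) := ⟨_, rfl⟩
  obtain ⟨C, x, W, m, E, A₀, B₀, hC, hCR, hCZ, hW, hΔ, hcl⟩ :=
    H76MX.exists_configX K N hH.hf hη hdy hax hN R₀ (by
      intro v hv
      rw [hR₀] at hv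
      exact (Finset.mem_filter.1 hv).2) D hD
  obtain ⟨S, c, X₀, hCS, hSZ, hc, h⟩ := H76MX.final_countX K hC hH hcs hW
    (fun d hd => ⟨(hΔ d hd).1, fun v hv => ((hΔ d hd).2 v hv).2⟩) hcl (H30PN.split_inf K N)
  refine ⟨S, c, X₀, hc, fun X hX => ?_⟩
  obtain ⟨G, h1, h3, h4⟩ := h X hX
  refine ⟨G, fun p hp => ?_, h3, h4⟩
  obtain ⟨g1, g2, g3, g4⟩ := h1 p hp
  refine ⟨g1, ?_, ⟨hgal, ?_, ?_⟩, fun L _ _ hL d hd => pf_of_adm g2 (hΔ d hd).1 (g4 d hd) hL⟩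
  · have h5 := (g4 1 (one_mem _) S subset_rfl).ne
    rw [one_pow, one_pow, one_mul, one_mul] at h5
    exact h5
  · intro N' _ _
    obtain ⟨r, hr⟩ := hdeg
    have h5 := Module.finrank_mul_finrank K N' N
    rw [hr] at h5
    obtain ⟨s, -, hs⟩ := (Nat.dvd_prime_pow Nat.prime_two).1 (Dvd.intro _ h5)
    exact ⟨s, hs⟩
  · intro v
    by_cases hv2 : (2 : 𝓞 K) ∈ v.asIdeal
    · exact Or.inl (hN v hv2)
    by_cases hvR : v ∈ C.R
    · exact Or.inr (Or.inl ⟨hv2, g3 v hvR⟩)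
    by_cases hvS : v ∈ S
    · left
      rcases hSZ v hvS with h5 | h5
      · rcases Finset.mem_union.1 h5 with h6 | h6
        · exact hCZ v h6
        · exact absurd h6 hvR
      · exact h5
    · refine Or.inr (Or.inr ⟨hvS, fun hr => hvR (hCR ?_)⟩)
      rw [hR₀]
      exact Finset.mem_filter.2 ⟨(ramF_fin (K := K) N).mem_toFinset.2 hr, hv2⟩

end H30MX
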